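import Pool.Agent.Lib.H44LPS.Tarry

/-!
# Equal sums of `k`-th powers in a short piece of an arithmetic progression
-/

set_option autoImplicit false

namespace Pool.Agent.Lib.H44LPS

open Finset

/-- the difference of the sums of the `j`-th powers -/
def S {n m : ℕ} (u : Fin n → ℕ) (v : Fin m → ℕ) (j : ℕ) : ℤ :=
  ∑ i, (u i : ℤ) ^ j - ∑ i, (v i : ℤ) ^ j

/-- expansion -/
theorem expand {n m : ℕ} (X M : ℕ) (u : Fin n → ℕ) (v : Fin m → ℕ) (k : ℕ) :
    ∑ i, ((X : ℤ) + M * u i) ^ k - ∑ i, ((X : ℤ) + M * v i) ^ k =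
      ∑ j ∈ range (k + 1), (M : ℤ) ^ j * X ^ (k - j) * k.choose j * S u v j := by
  have h : ∀ {l : ℕ} (w : Fin l → ℕ), ∑ i, ((X : ℤ) + M * w i) ^ k =
      ∑ j ∈ range (k + 1), (M : ℤ) ^ j * X ^ (k - j) * k.choose j * ∑ i, (w i : ℤ) ^ j := by
    intro l w
    simp only [add_comm (X : ℤ), add_pow, Finset.mul_sum]
    rw [Finset.sum_comm]
    refine Finset.sum_congr rfl fun j _ => Finset.sum_congr rfl fun i _ => ?_
    rw [mul_pow]
    ring
  rw [h u, h v, ← Finset.sum_sub_distrib]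
  refine Finset.sum_congr rfl fun j _ => ?_
  rw [S]
  ring

theorem abs_S_le {s : ℕ} {U : ℕ} {u v : Fin s → ℕ} (hu : ∀ i, u i ≤ U) (hv : ∀ i, v i ≤ U) (j : ℕ) :
    |S u v j| ≤ s * (U : ℤ) ^ j := by
  have h : ∀ w : Fin s → ℕ, (∀ i, w i ≤ U) → 0 ≤ ∑ i, (w i : ℤ) ^ j ∧
      ∑ i, (w i : ℤ) ^ j ≤ s * (U : ℤ) ^ j := by
    intro w hw
    refine ⟨Finset.sum_nonneg fun i _ => by positivity, ?_⟩
    calc ∑ i, (w i : ℤ) ^ j ≤ ∑ _i : Fin s, (U : ℤ) ^ j := by
          refine Finset.sum_le_sum fun i _ => ?_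
          exact pow_le_pow_left₀ (by positivity) (by exact_mod_cast hw i) _
      _ = s * (U : ℤ) ^ j := by simp
  obtain ⟨h1, h2⟩ := h u hu
  obtain ⟨h3, h4⟩ := h v hv
  rw [S, abs_le]
  constructor <;> linarith

/-- if the first differences vanish, an equality at `k ≥ s` is trivial -/
theorem S_ne {s : ℕ} (X M : ℕ) (hX : 0 < X) (u v : Fin s → ℕ) (k : ℕ) (hk : s ≤ k)
    (i₀ : Fin s) (hne : ∀ j, X + M * u i₀ ≠ X + M * v j)
    (heq : ∑ i, (X + M * u i) ^ k = ∑ i, (X + M * v i) ^ k) : ∃ r, r < s ∧ S u v r ≠ 0 := by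
  by_contra hcon
  push Not at hcon
  have h1 : ∀ j < s, ∑ i, (((X + M * u i : ℕ) : ℚ)) ^ j = ∑ i, (((X + M * v i : ℕ) : ℚ)) ^ j := by
    intro j hj
    have h2 := expand X M u v j
    have h0 : ∑ l ∈ range (j + 1), (M : ℤ) ^ l * X ^ (j - l) * j.choose l * S u v l = 0 := by
      refine Finset.sum_eq_zero fun l hl => ?_
      rw [hcon l (by rw [Finset.mem_range] at hl; omega), mul_zero]
    rw [h0, sub_eq_zero] at h2
    have h3 := congrArg (fun z : ℤ => (z : ℚ)) h2
    push_cast at h3 ⊢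
    exact h3
  obtain ⟨j, hj⟩ := exists_eq (x := fun i => ((X + M * u i : ℕ) : ℚ))
    (y := fun i => ((X + M * v i : ℕ) : ℚ)) (fun i => by positivity) (fun i => by positivity) h1 k hk
    (by exact_mod_cast heq) i₀
  exact hne j (by exact_mod_cast hj)

/-- the split of the expansion at the first difference which does not vanish -/
theorem split {s : ℕ} (X M : ℕ) (u v : Fin s → ℕ) (k r : ℕ) (hrk : r < k)
    (h0 : ∀ j < r, S u v j = 0)
    (heq : ∑ i, (X + M * u i) ^ k = ∑ i, (X + M * v i) ^ k) :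
    (M : ℤ) ^ r * X ^ (k - r) * k.choose r * S u v r =
      - ∑ j ∈ Ico (r + 1) (k + 1), (M : ℤ) ^ j * X ^ (k - j) * k.choose j * S u v j := by
  have h1 := expand X M u v k
  have h2 : ∑ i, ((X : ℤ) + M * u i) ^ k - ∑ i, ((X : ℤ) + M * v i) ^ k = 0 := by
    rw [sub_eq_zero]
    exact_mod_cast heq
  rw [h2, ← Finset.sum_range_add_sum_Ico _ (show r ≤ k + 1 by omega), Finset.sum_eq_zero, zero_add,
    Finset.sum_eq_sum_Ico_succ_bot (by omega)] at h1
  · linarith
  · intro j hj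
    rw [h0 j (Finset.mem_range.mp hj), mul_zero]

/-- the arithmetic bound -/
theorem arith {s : ℕ} (X M U : ℕ) (hM : 0 < M) (hc : Nat.Coprime X M) (u v : Fin s → ℕ)
    (hu : ∀ i, u i ≤ U) (hv : ∀ i, v i ≤ U) (k r : ℕ) (hrk : r < k)
    (h0 : ∀ j < r, S u v j = 0) (hr : S u v r ≠ 0)
    (heq : ∑ i, (X + M * u i) ^ k = ∑ i, (X + M * v i) ^ k) :
    M ≤ s * (k * U) ^ r := by
  have h1 := split X M u v k r hrk h0 heq
  have h2 : (M : ℤ) ^ r * M ∣ (M : ℤ) ^ r * (X ^ (k - r) * k.choose r * S u v r) := by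
    have h3 : (M : ℤ) ^ r * M ∣ ∑ j ∈ Ico (r + 1) (k + 1), (M : ℤ) ^ j * X ^ (k - j) * k.choose j *
        S u v j := by
      refine Finset.dvd_sum fun j hj => ?_
      rw [Finset.mem_Ico] at hj
      rw [← pow_succ]
      exact Dvd.dvd.mul_right (Dvd.dvd.mul_right (Dvd.dvd.mul_right (pow_dvd_pow _ hj.1) _) _) _
    have h4 : (M : ℤ) ^ r * (X ^ (k - r) * k.choose r * S u v r) =
        (M : ℤ) ^ r * X ^ (k - r) * k.choose r * S u v r := by ring
    rw [h4, h1]
    exact (dvd_neg).mpr h3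
  have hM' : (M : ℤ) ^ r ≠ 0 := pow_ne_zero _ (by exact_mod_cast hM.ne')
  have h5 := (mul_dvd_mul_iff_left hM').mp h2
  have h6 : IsCoprime (M : ℤ) ((X : ℤ) ^ (k - r)) := by
    refine IsCoprime.pow_right ?_
    rw [Nat.isCoprime_iff_coprime]
    exact hc.symm
  rw [mul_assoc] at h5
  have h7 := h6.dvd_of_dvd_mul_left h5
  have h8 : (k.choose r : ℤ) * S u v r ≠ 0 := by
    refine mul_ne_zero ?_ hr
    exact_mod_cast (Nat.choose_pos hrk.le).ne'
  have h9 := Int.le_of_dvd (abs_pos.mpr h8) ((dvd_abs _ _).mpr h7)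
  have h10 : |(k.choose r : ℤ) * S u v r| ≤ (k : ℤ) ^ r * (s * (U : ℤ) ^ r) := by
    rw [abs_mul, Nat.abs_cast]
    refine mul_le_mul ?_ (abs_S_le hu hv r) (abs_nonneg _) (by positivity)
    exact_mod_cast Nat.choose_le_pow k r
  have h11 : (M : ℤ) ≤ s * (k * U) ^ r := by
    refine (h9.trans h10).trans (le_of_eq ?_)
    rw [mul_pow]
    ring
  exact_mod_cast h11

/-- the terms of the expansion, with the powers of `U` -/
def T (X M U k j : ℕ) : ℕ := M ^ j * X ^ (k - j) * k.choose j * U ^ j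

theorem T_succ (X M U k j : ℕ) (hj : j < k) :
    X * (j + 1) * T X M U k (j + 1) ≤ k * M * U * T X M U k j := by
  have h1 : k.choose (j + 1) * (j + 1) = k.choose j * (k - j) := Nat.choose_succ_right_eq k j
  have h2 : X ^ (k - j) = X * X ^ (k - (j + 1)) := by
    rw [← pow_succ']
    congr 1
    omega
  have h3 : X * (j + 1) * T X M U k (j + 1) =
      (M * U) * (M ^ j * (X * X ^ (k - (j + 1))) * U ^ j) * (k.choose (j + 1) * (j + 1)) := by
    unfold T
    ring
  have h4 : k * M * U * T X M U k j = (M * U) * (M ^ j * (X * X ^ (k - (j + 1))) * U ^ j) *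
      (k.choose j * k) := by
    unfold T
    rw [h2]
    ring
  rw [h3, h4, h1]
  exact Nat.mul_le_mul_left _ (Nat.mul_le_mul_left _ (Nat.sub_le _ _))

/-- the sum of the terms after `r` is at most twice the next one -/
theorem sum_T (X M U k r : ℕ) (hX : 0 < X) (hbig : k * M * U ≤ X) (hr : 1 ≤ r) (K : ℕ) (hK : K ≤ k)
    (hrK : r + 1 ≤ K) :
    ∑ j ∈ Ico (r + 1) (K + 1), T X M U k j + T X M U k K ≤ 2 * T X M U k (r + 1) := by
  induction K, hrK using Nat.le_induction with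
  | base => simp [two_mul]
  | succ K hK' ih =>
    have ih' := ih (by omega)
    rw [Finset.sum_Ico_succ_top (by omega)]
    have h1 := T_succ X M U k K (by omega)
    have h2 : X * 2 * T X M U k (K + 1) ≤ X * T X M U k K := by
      calc X * 2 * T X M U k (K + 1) ≤ X * (K + 1) * T X M U k (K + 1) :=
            Nat.mul_le_mul_right _ (Nat.mul_le_mul_left _ (by omega))
        _ ≤ k * M * U * T X M U k K := h1
        _ ≤ X * T X M U k K := Nat.mul_le_mul_right _ hbig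
    have h3 : 2 * T X M U k (K + 1) ≤ T X M U k K := by
      refine Nat.le_of_mul_le_mul_left ?_ hX
      calc X * (2 * T X M U k (K + 1)) = X * 2 * T X M U k (K + 1) := by ring
        _ ≤ _ := h2
    omega

/-- the bound from the size -/
theorem size {s : ℕ} (X M U : ℕ) (hX : 0 < X) (hM : 0 < M) (u v : Fin s → ℕ)
    (hu : ∀ i, u i ≤ U) (hv : ∀ i, v i ≤ U) (k r : ℕ) (hr1 : 1 ≤ r) (hrk : r < k)
    (h0 : ∀ j < r, S u v j = 0) (hr : S u v r ≠ 0)
    (heq : ∑ i, (X + M * u i) ^ k = ∑ i, (X + M * v i) ^ k) (hbig : k * M * U ≤ X) :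
    X ≤ s * k * M * U ^ (r + 1) := by
  have h1 := split X M u v k r hrk h0 heq
  have h2 : ((M ^ r * X ^ (k - r) * k.choose r : ℕ) : ℤ) ≤
      s * ((∑ j ∈ Ico (r + 1) (k + 1), T X M U k j : ℕ) : ℤ) := by
    have h3 : |(M : ℤ) ^ r * X ^ (k - r) * k.choose r * S u v r| ≤
        s * ((∑ j ∈ Ico (r + 1) (k + 1), T X M U k j : ℕ) : ℤ) := by
      rw [h1, abs_neg]
      refine (Finset.abs_sum_le_sum_abs _ _).trans ?_
      push_cast
      rw [Finset.mul_sum]
      refine Finset.sum_le_sum fun j _ => ?_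
      rw [abs_mul, abs_of_nonneg (by positivity : (0 : ℤ) ≤ (M : ℤ) ^ j * X ^ (k - j) * k.choose j)]
      calc (M : ℤ) ^ j * X ^ (k - j) * k.choose j * |S u v j|
          ≤ (M : ℤ) ^ j * X ^ (k - j) * k.choose j * (s * (U : ℤ) ^ j) :=
            mul_le_mul_of_nonneg_left (abs_S_le hu hv j) (by positivity)
        _ = s * (T X M U k j : ℤ) := by
            unfold T
            push_cast
            ring
    refine le_trans ?_ h3
    rw [abs_mul, abs_of_nonneg (by positivity : (0 : ℤ) ≤ (M : ℤ) ^ r * X ^ (k - r) * k.choose r)]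
    have h4 : (1 : ℤ) ≤ |S u v r| := Int.one_le_abs hr
    push_cast
    exact le_mul_of_one_le_right (by positivity) h4
  have h5 : M ^ r * X ^ (k - r) * k.choose r ≤ s * ∑ j ∈ Ico (r + 1) (k + 1), T X M U k j := by
    exact_mod_cast h2
  have h6 := sum_T X M U k r hX hbig hr1 k le_rfl (by omega)
  have h7 := T_succ X M U k r hrk
  have h8 : X * (2 * T X M U k (r + 1)) ≤ k * M * U * T X M U k r := by
    calc X * (2 * T X M U k (r + 1)) = X * 2 * T X M U k (r + 1) := by ring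
      _ ≤ X * (r + 1) * T X M U k (r + 1) :=
          Nat.mul_le_mul_right _ (Nat.mul_le_mul_left _ (by omega))
      _ ≤ _ := h7
  have h9 : (M ^ r * X ^ (k - r) * k.choose r) * X ≤
      (M ^ r * X ^ (k - r) * k.choose r) * (s * k * M * U ^ (r + 1)) := by
    calc (M ^ r * X ^ (k - r) * k.choose r) * X
        ≤ (s * ∑ j ∈ Ico (r + 1) (k + 1), T X M U k j) * X := Nat.mul_le_mul_right _ h5
      _ = s * (X * ∑ j ∈ Ico (r + 1) (k + 1), T X M U k j) := by ring
      _ ≤ s * (X * (2 * T X M U k (r + 1))) :=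
          Nat.mul_le_mul_left _ (Nat.mul_le_mul_left _ (by omega))
      _ ≤ s * (k * M * U * T X M U k r) := Nat.mul_le_mul_left _ h8
      _ = (M ^ r * X ^ (k - r) * k.choose r) * (s * k * M * U ^ (r + 1)) := by
          unfold T
          ring
  refine Nat.le_of_mul_le_mul_left h9 ?_
  have := Nat.choose_pos hrk.le
  positivity

end Pool.Agent.Lib.H44LPS
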