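import Mathlib

/-!
# Equal sums of powers with exponents `0, …, s - 1` and `k`

If `x, y` are positive and the sums of the `j`-th powers agree for `j < s` and for one `j = k ≥ s`,
where both families have `s` members, then every `x i` is some `y j`.
-/

set_option autoImplicit false

namespace Pool.Agent.Lib.H44LPS

open Polynomial Finset

variable {s : ℕ}

/-- the polynomial with the roots `1 / x i` -/
noncomputable def E (x : Fin s → ℚ) : ℚ[X] := ∏ i, (1 - C (x i) * X)

/-- the sum of the products of all factors but one -/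
noncomputable def N (x : Fin s → ℚ) : ℚ[X] := ∑ i, ∏ l ∈ univ.erase i, (1 - C (x l) * X)

theorem N_eq (x : Fin s → ℚ) : N x = C (s : ℚ) * E x - X * derivative (E x) := by
  have h1 : X * derivative (E x) = ∑ i, (E x - ∏ l ∈ univ.erase i, (1 - C (x l) * X)) := by
    unfold E
    rw [derivative_prod_finset, Finset.mul_sum]
    refine Finset.sum_congr rfl fun i _ => ?_
    rw [← Finset.mul_prod_erase univ (fun i => 1 - C (x i) * X) (Finset.mem_univ i)]
    simp only [derivative_sub, derivative_one, derivative_mul, derivative_C, derivative_X]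
    ring
  rw [h1, Finset.sum_sub_distrib]
  simp [N]

theorem coeff_N (x : Fin s → ℚ) (j : ℕ) : (N x).coeff j = ((s : ℚ) - j) * (E x).coeff j := by
  rw [N_eq, coeff_sub, coeff_C_mul]
  rcases j with _ | j
  · simp
  · rw [coeff_X_mul, coeff_derivative]
    push_cast
    ring

theorem coeff_E_zero (x : Fin s → ℚ) : (E x).coeff 0 = 1 := by
  rw [coeff_zero_eq_eval_zero]
  unfold E
  rw [eval_prod]
  simp

theorem natDegree_E (x : Fin s → ℚ) : (E x).natDegree ≤ s := by
  unfold E
  refine (natDegree_prod_le _ _).trans ?_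
  calc ∑ i : Fin s, (1 - C (x i) * X : ℚ[X]).natDegree ≤ ∑ _i : Fin s, 1 := by
        refine Finset.sum_le_sum fun i _ => ?_
        refine (natDegree_sub_le _ _).trans ?_
        simp only [natDegree_one]
        exact max_le (by norm_num) ((natDegree_C_mul_le _ _).trans natDegree_X_le)
    _ = s := by simp

/-- the generating function of the power sums -/
noncomputable def Z (x : Fin s → ℚ) : PowerSeries ℚ := PowerSeries.mk fun n => ∑ i, x i ^ n

/-- the geometric series -/
noncomputable def G (a : ℚ) : PowerSeries ℚ := PowerSeries.mk fun n => a ^ n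

theorem G_mul (a : ℚ) : G a * ((1 - C a * X : ℚ[X]) : PowerSeries ℚ) = 1 := by
  rw [Polynomial.coe_sub, Polynomial.coe_one, Polynomial.coe_mul, Polynomial.coe_C, Polynomial.coe_X]
  ext n
  rw [mul_sub, map_sub, mul_one]
  rcases n with _ | n
  · simp [G]
  · have : G a * (PowerSeries.C a * PowerSeries.X) = PowerSeries.C a * (G a * PowerSeries.X) := by
      ring
    rw [this, PowerSeries.coeff_C_mul, PowerSeries.coeff_succ_mul_X]
    simp [G, pow_succ, PowerSeries.coeff_one]
    ring

theorem Z_eq (x : Fin s → ℚ) : Z x = ∑ i, G (x i) := by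
  ext n
  simp [Z, G]

theorem Z_mul_E (x : Fin s → ℚ) : Z x * (E x : PowerSeries ℚ) = (N x : PowerSeries ℚ) := by
  rw [Z_eq, Finset.sum_mul]
  have h : (N x : PowerSeries ℚ) =
      ∑ i, ((∏ l ∈ univ.erase i, (1 - C (x l) * X) : ℚ[X]) : PowerSeries ℚ) := by
    unfold N
    simpa only [Polynomial.coeToPowerSeries.ringHom_apply] using
      map_sum (Polynomial.coeToPowerSeries.ringHom (R := ℚ))
        (fun i => ∏ l ∈ univ.erase i, (1 - C (x l) * X)) univ
  rw [h]
  refine Finset.sum_congr rfl fun i _ => ?_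
  unfold E
  rw [← Finset.mul_prod_erase univ (fun i => 1 - C (x i) * X) (Finset.mem_univ i),
    Polynomial.coe_mul, ← mul_assoc, G_mul, one_mul]

theorem coeff_E_eq {x y : Fin s → ℚ} (h : ∀ j < s, ∑ i, x i ^ j = ∑ i, y i ^ j) :
    ∀ j < s, (E x).coeff j = (E y).coeff j := by
  intro j
  induction j using Nat.strong_induction_on with
  | _ j ih =>
    intro hj
    rcases Nat.eq_zero_or_pos j with h0 | h0
    · subst h0
      rw [coeff_E_zero, coeff_E_zero]
    have hN : PowerSeries.coeff j ((N x : PowerSeries ℚ) - (N y : PowerSeries ℚ)) =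
        ((s : ℚ) - j) * ((E x).coeff j - (E y).coeff j) := by
      rw [map_sub, Polynomial.coeff_coe, Polynomial.coeff_coe, coeff_N, coeff_N]
      ring
    have hZ : (N x : PowerSeries ℚ) - (N y : PowerSeries ℚ) =
        Z x * ((E x : PowerSeries ℚ) - (E y : PowerSeries ℚ)) + (Z x - Z y) * (E y : PowerSeries ℚ) := by
      rw [← Z_mul_E, ← Z_mul_E]
      ring
    have h1 : PowerSeries.coeff j (Z x * ((E x : PowerSeries ℚ) - (E y : PowerSeries ℚ))) =
        (s : ℚ) * ((E x).coeff j - (E y).coeff j) := by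
      rw [PowerSeries.coeff_mul, Finset.sum_eq_single (0, j)]
      · simp [Z]
      · rintro ⟨a, b⟩ hab hne
        rw [Finset.HasAntidiagonal.mem_antidiagonal] at hab
        have hb : b < j := by
          rcases Nat.lt_or_ge b j with hb | hb
          · exact hb
          · exfalso
            apply hne
            simp only at hab
            have : a = 0 := by omega
            subst this
            have : b = j := by omega
            rw [this]
        rw [map_sub, Polynomial.coeff_coe, Polynomial.coeff_coe, ih b hb (hb.trans hj), sub_self,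
          mul_zero]
      · intro hn
        exact absurd (by simp) hn
    have h2 : PowerSeries.coeff j ((Z x - Z y) * (E y : PowerSeries ℚ)) = 0 := by
      rw [PowerSeries.coeff_mul]
      refine Finset.sum_eq_zero ?_
      rintro ⟨a, b⟩ hab
      rw [Finset.HasAntidiagonal.mem_antidiagonal] at hab
      simp only at hab
      have ha : a < s := by omega
      simp [Z, h a ha]
    rw [hZ, map_add, h1, h2, add_zero] at hN
    have h3 : (j : ℚ) * ((E x).coeff j - (E y).coeff j) = 0 := by linarith
    have h4 : (j : ℚ) ≠ 0 := by exact_mod_cast h0.ne'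
    have h5 := (mul_eq_zero.mp h3).resolve_left h4
    linarith

/-- the polynomials differ in the last coefficient only -/
theorem E_sub_E {x y : Fin s → ℚ} (h : ∀ j < s, ∑ i, x i ^ j = ∑ i, y i ^ j) :
    E y - E x = C ((E y).coeff s - (E x).coeff s) * X ^ s := by
  ext j
  rw [coeff_sub, coeff_C_mul, coeff_X_pow]
  rcases lt_trichotomy j s with hj | hj | hj
  · rw [coeff_E_eq h j hj, if_neg (by omega)]
    ring
  · subst hj
    simp
  · rw [if_neg (by omega), coeff_eq_zero_of_natDegree_lt ((natDegree_E y).trans_lt hj),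
      coeff_eq_zero_of_natDegree_lt ((natDegree_E x).trans_lt hj)]
    ring

theorem N_eq_N {x y : Fin s → ℚ} (h : ∀ j < s, ∑ i, x i ^ j = ∑ i, y i ^ j) : N x = N y := by
  ext j
  rw [coeff_N, coeff_N]
  rcases lt_trichotomy j s with hj | hj | hj
  · rw [coeff_E_eq h j hj]
  · subst hj
    simp
  · rw [coeff_eq_zero_of_natDegree_lt ((natDegree_E y).trans_lt hj),
      coeff_eq_zero_of_natDegree_lt ((natDegree_E x).trans_lt hj)]

/-- the inverse of `E` -/
noncomputable def H (x : Fin s → ℚ) : PowerSeries ℚ := ∏ i, G (x i)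

theorem E_mul_H (x : Fin s → ℚ) : (E x : PowerSeries ℚ) * H x = 1 := by
  have h : (E x : PowerSeries ℚ) = ∏ i, ((1 - C (x i) * X : ℚ[X]) : PowerSeries ℚ) := by
    unfold E
    simpa only [Polynomial.coeToPowerSeries.ringHom_apply] using
      map_prod (Polynomial.coeToPowerSeries.ringHom (R := ℚ)) (fun i => (1 - C (x i) * X)) univ
  rw [h, H, ← Finset.prod_mul_distrib]
  refine Finset.prod_eq_one fun i _ => ?_
  rw [mul_comm, G_mul]

theorem Z_sub_Z {x y : Fin s → ℚ} (h : ∀ j < s, ∑ i, x i ^ j = ∑ i, y i ^ j) :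
    Z x - Z y = PowerSeries.C ((E y).coeff s - (E x).coeff s) * PowerSeries.X ^ s * (Z x * H y) := by
  have h1 : Z x * (E x : PowerSeries ℚ) = Z y * (E y : PowerSeries ℚ) := by
    rw [Z_mul_E, Z_mul_E, N_eq_N h]
  have h2 : (E y : PowerSeries ℚ) - (E x : PowerSeries ℚ) =
      PowerSeries.C ((E y).coeff s - (E x).coeff s) * PowerSeries.X ^ s := by
    rw [← Polynomial.coe_sub, E_sub_E h, Polynomial.coe_mul, Polynomial.coe_C, Polynomial.coe_pow,
      Polynomial.coe_X]
  rw [← h2]
  have h3 := E_mul_H y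
  calc Z x - Z y = (Z x - Z y) * ((E y : PowerSeries ℚ) * H y) := by rw [h3, mul_one]
    _ = (Z x * (E y : PowerSeries ℚ) - Z y * (E y : PowerSeries ℚ)) * H y := by ring
    _ = (Z x * (E y : PowerSeries ℚ) - Z x * (E x : PowerSeries ℚ)) * H y := by rw [h1]
    _ = ((E y : PowerSeries ℚ) - (E x : PowerSeries ℚ)) * (Z x * H y) := by ring

theorem coeff_H_nonneg {y : Fin s → ℚ} (hy : ∀ i, 0 < y i) (n : ℕ) :
    0 ≤ PowerSeries.coeff n (H y) := by
  have key : ∀ t : Finset (Fin s), ∀ n, 0 ≤ PowerSeries.coeff n (∏ i ∈ t, G (y i)) := by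
    intro t
    induction t using Finset.induction_on with
    | empty =>
      intro n
      rw [Finset.prod_empty, PowerSeries.coeff_one]
      split_ifs <;> norm_num
    | insert a t ha ih =>
      intro n
      rw [Finset.prod_insert ha, PowerSeries.coeff_mul]
      refine Finset.sum_nonneg fun p _ => mul_nonneg ?_ (ih _)
      rw [G, PowerSeries.coeff_mk]
      exact (pow_pos (hy a) _).le
  exact key _ n

theorem coeff_Z_mul_H_pos {x y : Fin s → ℚ} (hs : 0 < s) (hx : ∀ i, 0 < x i) (hy : ∀ i, 0 < y i)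
    (n : ℕ) : 0 < PowerSeries.coeff n (Z x * H y) := by
  have hZ : ∀ m, 0 < PowerSeries.coeff m (Z x) := by
    intro m
    rw [Z, PowerSeries.coeff_mk]
    exact Finset.sum_pos (fun i _ => pow_pos (hx i) _) ⟨⟨0, hs⟩, Finset.mem_univ _⟩
  have hH : PowerSeries.coeff 0 (H y) = 1 := by
    have := congrArg (PowerSeries.coeff 0) (E_mul_H y)
    rw [PowerSeries.coeff_mul] at this
    simpa [coeff_E_zero] using this
  rw [PowerSeries.coeff_mul]
  refine Finset.sum_pos' (fun p _ => mul_nonneg (hZ _).le (coeff_H_nonneg hy _)) ⟨(n, 0), by simp, ?_⟩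
  rw [hH, mul_one]
  exact hZ n

/-- **Equal power sums with exponents `0, …, s - 1` and `k ≥ s`.** -/
theorem exists_eq {x y : Fin s → ℚ} (hx : ∀ i, 0 < x i) (hy : ∀ i, 0 < y i)
    (h : ∀ j < s, ∑ i, x i ^ j = ∑ i, y i ^ j) (k : ℕ) (hk : s ≤ k)
    (hks : ∑ i, x i ^ k = ∑ i, y i ^ k) (i : Fin s) : ∃ j, x i = y j := by
  have hs : 0 < s := i.pos
  have h1 := congrArg (PowerSeries.coeff k) (Z_sub_Z h)
  rw [map_sub, Z, Z, PowerSeries.coeff_mk, PowerSeries.coeff_mk, hks, sub_self, mul_assoc,
    PowerSeries.coeff_C_mul, PowerSeries.coeff_X_pow_mul', if_pos hk] at h1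
  have h2 := (mul_eq_zero.mp h1.symm).resolve_right (coeff_Z_mul_H_pos hs hx hy _).ne'
  have h3 : E y = E x := by
    have := E_sub_E h
    rw [h2, map_zero, zero_mul, sub_eq_zero] at this
    exact this
  have h4 : (E x).eval (x i)⁻¹ = 0 := by
    unfold E
    rw [eval_prod]
    refine Finset.prod_eq_zero (Finset.mem_univ i) ?_
    simp [(hx i).ne']
  rw [← h3] at h4
  unfold E at h4
  rw [eval_prod, Finset.prod_eq_zero_iff] at h4
  obtain ⟨j, _, hj⟩ := h4
  refine ⟨j, ?_⟩
  simp only [eval_sub, eval_one, eval_mul, eval_C, eval_X] at hj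
  have := (hx i).ne'
  field_simp at hj
  linarith

end Pool.Agent.Lib.H44LPS
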